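import Pool.Agent.H54.MV.Q1False

/-!
# MP_618f4a_an, Q1: a negative answer

There are `ρ` with `Re ρ > 0` and a Siegel number `θ` such that the Siegel disk of `P_ρ` at `0`
does not have the point `1` on its boundary.
-/

namespace Pool.Agent.Results.MP_618f4a_an.Q1False

open Pool.H54.MV.Q1False

open Metric Set Filter Topology H26.Siegel

/-- **Q1 of MP_618f4a_an is false.** There are `ρ` with `Re ρ > 0` and a Siegel number `θ` for which
the Siegel disk of `P_ρ` at `0` exists and does not have `1` on its boundary. -/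
theorem result : ∃ (ρ : ℂ) (θ : ℝ), 0 < ρ.re ∧ IsSiegelNumber θ ∧
    ∃ S : Set ℂ, IsSiegelDisk ρ θ S ∧ (1 : ℂ) ∉ frontier S :=
  Pool.H54.MV.Q1False.result

end Pool.Agent.Results.MP_618f4a_an.Q1False
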